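import Mathlib
import Pool.Agent.H383Mader.Extra

set_option autoImplicit false

namespace Pool.Agent.Results.MP_df1a54_co.LinearBounds

/-- `G` is `k`-connected: it has at least `k + 1` vertices and deleting fewer than `k` vertices
always leaves a connected graph. (Every graph with a vertex is `0`-connected.) -/
def KConn {n : ℕ} (G : SimpleGraph (Fin n)) (k : ℕ) : Prop :=
  k + 1 ≤ n ∧ ∀ S : Finset (Fin n), S.card < k → (G.induce {v | v ∉ S}).Connected

/-- `r(G)`: the largest size of a set `F` of edges of `G` such that `G - F` is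
`(k-1)`-connected. -/
noncomputable def r {n : ℕ} (G : SimpleGraph (Fin n)) (k : ℕ) : ℕ :=
  sSup {m : ℕ | ∃ F : Finset (Sym2 (Fin n)), (F : Set (Sym2 (Fin n))) ⊆ G.edgeSet ∧
    KConn (G.deleteEdges (F : Set (Sym2 (Fin n)))) (k - 1) ∧ F.card = m}

/-- `f(n,k)`: the minimum of `r(G)` over all `k`-connected graphs `G` of order `n`. -/
noncomputable def f (n k : ℕ) : ℕ :=
  sInf {m : ℕ | ∃ G : SimpleGraph (Fin n), KConn G k ∧ r G k = m}

/-- Linear lower and upper bounds and some exact values of `f(n,k)`. -/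
theorem result :
    -- the supremum and the infimum in the definitions are attained
    (∀ n k : ℕ, 1 ≤ k → k + 1 ≤ n → IsLeast {m : ℕ | ∃ G : SimpleGraph (Fin n), KConn G k ∧ r G k = m} (f n k)) ∧
    (∀ n k : ℕ, ∀ G : SimpleGraph (Fin n), KConn G k →
      IsGreatest {m : ℕ | ∃ F : Finset (Sym2 (Fin n)), (F : Set (Sym2 (Fin n))) ⊆ G.edgeSet ∧
        KConn (G.deleteEdges (F : Set (Sym2 (Fin n)))) (k - 1) ∧ F.card = m} (r G k)) ∧
    -- lower bound
    (∀ n k : ℕ, 2 ≤ k → k + 1 ≤ n → (k - 2) * n + 2 ≤ 2 * (2 * k - 3) * f n k) ∧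
    -- upper bounds: `n - k`, and `n / 2` if `k n` is even and `k ≥ 2`
    (∀ n k : ℕ, 1 ≤ k → 2 * k ≤ n → f n k ≤ n - k) ∧
    (∀ n k : ℕ, 2 ≤ k → k + 1 ≤ n → Even (k * n) → 2 * f n k ≤ n) ∧
    -- exact values
    (∀ n : ℕ, 2 ≤ n → f n 1 = n - 1) ∧
    (∀ n : ℕ, 3 ≤ n → f n 2 = 1) ∧
    (∀ k : ℕ, 1 ≤ k → f (k + 1) k = (k + 1) / 2) :=
  ⟨fun _ _ _ h => H383Mader.fMin_isLeast h, fun _ _ G hG => H383Mader.removable_isGreatest G hG,
    fun _ _ hk h => H383Mader.fMin_ge hk h, fun _ _ hk h => H383Mader.fMin_le_bip hk h,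
    fun _ _ hk h he => H383Mader.fMin_le_half hk h he,
    fun _ hn => H383Mader.fMin_one hn, fun _ hn => H383Mader.fMin_two hn,
    fun _ hk => H383Mader.fMin_succ hk⟩

end Pool.Agent.Results.MP_df1a54_co.LinearBounds
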